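import Mathlib

set_option autoImplicit false

namespace Pool.Agent.Results.MP_091b59_co.Bounded
open Finset
open scoped Classical

/-- the set `S(f)` of edge sums -/
def sums {n : ℕ} (G : SimpleGraph (Fin n)) (f : Fin n → ℤ) : Set ℤ :=
  {s | ∃ u v, G.Adj u v ∧ f u + f v = s}

/-- the sum index -/
noncomputable def sumIndex {n : ℕ} (G : SimpleGraph (Fin n)) : ℕ :=
  sInf {k | ∃ f : Fin n → ℤ, Function.Injective f ∧ (sums G f).ncard = k}

/-- `g` is a sum graph labelling of `H` -/
def IsSumLabel {W : Type} (H : SimpleGraph W) (g : W → ℤ) : Prop :=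
  Function.Injective g ∧ (∀ x, 0 < g x) ∧ ∀ x y, x ≠ y → (H.Adj x y ↔ ∃ w, g x + g y = g w)

/-- `G` with `r` new isolated vertices has an exclusive sum labelling -/
def Excl {n : ℕ} (G : SimpleGraph (Fin n)) (r : ℕ) : Prop :=
  ∃ g : Fin n ⊕ Fin r → ℤ, IsSumLabel (G.sum (⊥ : SimpleGraph (Fin r))) g ∧
    ∀ u v, G.Adj u v → ∃ i, g (Sum.inl u) + g (Sum.inl v) = g (Sum.inr i)

/-- the exclusive sum number -/
noncomputable def exclusive {n : ℕ} (G : SimpleGraph (Fin n)) : ℕ := sInf {r | Excl G r}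

theorem two_pow (a b c d : ℕ) (h : (2 : ℤ) ^ a + 2 ^ b = 2 ^ c + 2 ^ d) : a = c ∨ a = d := by
  by_contra hc
  push Not at hc
  have lt : ∀ x y : ℕ, x < y → 2 * (2 : ℤ) ^ x ≤ 2 ^ y := fun x y h => by
    rw [← pow_succ']; exact pow_le_pow_right₀ (by norm_num) h
  have inj : ∀ x y : ℕ, (2 : ℤ) ^ x = 2 ^ y → x = y := fun x y h =>
    (pow_right_inj₀ (by norm_num) (by norm_num)).1 h
  have hb : b ≠ c := fun e => hc.2 (inj _ _ (by subst e; linarith))
  have hb' : b ≠ d := fun e => hc.1 (inj _ _ (by subst e; linarith))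
  have pa : (0 : ℤ) < 2 ^ a := by positivity
  have pb : (0 : ℤ) < 2 ^ b := by positivity
  have pc : (0 : ℤ) < 2 ^ c := by positivity
  have pd : (0 : ℤ) < 2 ^ d := by positivity
  rcases lt_or_gt_of_ne hc.1 with h1 | h1 <;> rcases lt_or_gt_of_ne hc.2 with h2 | h2 <;>
    rcases lt_or_gt_of_ne hb with h3 | h3 <;> rcases lt_or_gt_of_ne hb' with h4 | h4 <;>
    have := lt _ _ h1 <;> have := lt _ _ h2 <;> have := lt _ _ h3 <;> have := lt _ _ h4 <;> omega

theorem main {n : ℕ} (G : SimpleGraph (Fin n)) (f : Fin n → ℤ) (hf : Function.Injective f) :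
    ∃ r ≤ (sums G f).ncard * 4 ^ (sums G f).ncard, Excl G r := by
  have hfin : (sums G f).Finite :=
    (Set.finite_range fun p : Fin n × Fin n => f p.1 + f p.2).subset
      fun s ⟨u, v, _, h⟩ => ⟨(u, v), h⟩
  let S := hfin.toFinset
  have hS : (sums G f).ncard = S.card := Set.ncard_eq_toFinset_card _ hfin
  let T : Fin n → Finset ℤ := fun v => S.filter fun s => ∃ w, G.Adj v w ∧ f v + f w = s
  let c : Finset ℤ → ℤ := fun X => 2 ^ Encodable.encode X
  have c0 : ∀ X, 0 < c X := fun X => by positivity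
  obtain ⟨B, hB⟩ : ∃ B, ∀ v, c (T v) ≤ B :=
    ⟨∑ v, c (T v), fun v => single_le_sum (f := fun v => c (T v)) (fun _ _ => (c0 _).le) (mem_univ v)⟩
  let p : Fin n → ℤ := fun v => (2 * B) * f v + c (T v)
  obtain ⟨R, hR⟩ : ∃ R, 0 ≤ R ∧ ∀ v, |p v| ≤ R :=
    ⟨∑ v, |p v|, by positivity,
      fun v => single_le_sum (f := fun v => |p v|) (fun _ _ => abs_nonneg _) (mem_univ v)⟩
  let g : Fin n → ℤ := fun v => (5 * R + 1) + p v
  have hg : ∀ v, 4 * R + 1 ≤ g v ∧ g v ≤ 6 * R + 1 := fun v => by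
    have := abs_le.1 (hR.2 v)
    simp only [g]; omega
  have dec : ∀ u v u' v', g u + g v = g u' + g v' →
      f u + f v = f u' + f v' ∧ (T u = T u' ∨ T u = T v') := by
    intro u v u' v' h
    have h1 : 2 * B * ((f u + f v) - (f u' + f v')) =
        c (T u') + c (T v') - (c (T u) + c (T v)) := by
      simp only [g, p] at h; linarith
    have := hB u; have := hB v; have := hB u'; have := hB v'
    have := c0 (T u); have := c0 (T v); have := c0 (T u'); have := c0 (T v')
    have h2 : (f u + f v) - (f u' + f v') = 0 := by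
      by_contra h3
      rcases lt_or_gt_of_ne h3 with h3 | h3 <;> nlinarith
    refine ⟨by linarith, ?_⟩
    rw [h2] at h1
    have := two_pow _ _ _ _ (show c (T u) + c (T v) = c (T u') + c (T v') by linarith)
    simpa using this
  let Z : Finset ℤ := (univ.filter fun q : Fin n × Fin n => G.Adj q.1 q.2).image
    fun q => g q.1 + g q.2
  have hZ : ∀ z, z ∈ Z ↔ ∃ u v, G.Adj u v ∧ g u + g v = z := by simp [Z]
  have hZb : ∀ z ∈ Z, 8 * R + 2 ≤ z ∧ z ≤ 12 * R + 2 := by
    intro z hz
    obtain ⟨u, v, -, rfl⟩ := (hZ z).1 hz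
    have := hg u; have := hg v; omega
  let e := Z.orderEmbOfFin rfl
  have he : ∀ i, 8 * R + 2 ≤ e i ∧ e i ≤ 12 * R + 2 := fun i => hZb _ (Z.orderEmbOfFin_mem rfl i)
  have hsur : ∀ u v, G.Adj u v → ∃ i, g u + g v = e i := by
    intro u v h
    have : g u + g v ∈ Set.range e := by
      rw [Finset.range_orderEmbOfFin]; exact (hZ _).2 ⟨u, v, h, rfl⟩
    obtain ⟨i, hi⟩ := this
    exact ⟨i, hi.symm⟩
  have hR0 := hR.1
  refine ⟨Z.card, ?_, Sum.elim g e, ⟨?_, ?_, ?_⟩, hsur⟩
  · rw [hS]
    have : Z ⊆ (S ×ˢ S.powerset ×ˢ S.powerset).image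
        fun q => 2 * (5 * R + 1) + 2 * B * q.1 + c q.2.1 + c q.2.2 := by
      intro z hz
      obtain ⟨u, v, h, rfl⟩ := (hZ z).1 hz
      refine mem_image.2 ⟨(f u + f v, T u, T v), ?_, by simp only [g, p]; ring⟩
      simp only [mem_product, mem_powerset]
      exact ⟨hfin.mem_toFinset.2 ⟨u, v, h, rfl⟩, filter_subset _ _, filter_subset _ _⟩
    refine (card_le_card this).trans (card_image_le.trans ?_)
    rw [card_product, card_product, card_powerset, ← mul_pow]
    exact le_rfl
  · rintro (x | x) (y | y) h <;> simp only [Sum.elim_inl, Sum.elim_inr] at h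
    · have := (dec x x y y (by rw [h])).1
      rw [hf (show f x = f y by linarith)]
    · have := hg x; have := he y; omega
    · have := hg y; have := he x; omega
    · rw [e.injective h]
  · rintro (x | x)
    · have := hg x; simp only [Sum.elim_inl]; omega
    · have := he x; simp only [Sum.elim_inr]; omega
  · rintro (x | x) (y | y) hxy <;> simp only [Sum.elim_inl, Sum.elim_inr, SimpleGraph.sum_adj,
      Sum.exists, SimpleGraph.bot_adj, false_iff, not_or, not_exists]
    · refine ⟨fun h => Or.inr (hsur x y h), ?_⟩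
      rintro (⟨w, h⟩ | ⟨i, h⟩)
      · have := hg x; have := hg y; have := hg w; omega
      · obtain ⟨u, v, huv, h'⟩ := (hZ _).1 (Z.orderEmbOfFin_mem rfl i)
        obtain ⟨h1, h2⟩ := dec x y u v (h.trans h'.symm)
        have hs : f u + f v ∈ S := hfin.mem_toFinset.2 ⟨u, v, huv, rfl⟩
        have h3 : f u + f v ∈ T x := by
          rcases h2 with h2 | h2 <;> rw [h2]
          · exact mem_filter.2 ⟨hs, v, huv, rfl⟩
          · exact mem_filter.2 ⟨hs, u, huv.symm, add_comm _ _⟩
        obtain ⟨w, h4, h5⟩ := (mem_filter.1 h3).2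
        rwa [hf (show f y = f w by linarith)]
    · refine ⟨fun w h => ?_, fun w h => ?_⟩
      · have := hg x; have := he y; have := hg w; omega
      · have := hg x; have := he y; have := he w; omega
    · refine ⟨fun w h => ?_, fun w h => ?_⟩
      · have := hg y; have := he x; have := hg w; omega
      · have := hg y; have := he x; have := he w; omega
    · refine ⟨fun w h => ?_, fun w h => ?_⟩
      · have := he y; have := he x; have := hg w; omega
      · have := he y; have := he x; have := he w; omega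

theorem result (n : ℕ) (G : SimpleGraph (Fin n)) :
    (∃ r, Excl G r) ∧ exclusive G ≤ sumIndex G * 4 ^ sumIndex G := by
  obtain ⟨f, hf, h⟩ : sumIndex G ∈
      {k | ∃ f : Fin n → ℤ, Function.Injective f ∧ (sums G f).ncard = k} :=
    Nat.sInf_mem ⟨_, fun v => (v : ℕ), fun a b h => Fin.ext (by simpa using h), rfl⟩
  obtain ⟨r, h1, h2⟩ := main G f hf
  exact ⟨⟨r, h2⟩, (Nat.sInf_le h2).trans (h ▸ h1)⟩

end Pool.Agent.Results.MP_091b59_co.Bounded
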